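import Pool.Agent.Helper59.LUC.Goals

/-! Packet RK1 of helper59 (MP_387004_nt): rank of appearance. -/

namespace Pool.Agent.Helper59.LUC

open Polynomial

theorem PkRK1.V_cast {F : Type*} [Field F] (T M : ℤ) (x : F)
    (hx : x ^ 2 - (T : F) * x + (M : F) ^ 2 = 0) (n : ℕ) :
    ((V T (M ^ 2) n : ℤ) : F) = x ^ n + ((T : F) - x) ^ n := by
  induction n using Nat.twoStepInduction with
  | zero => simp [V]; norm_num
  | one => simp [V]
  | more n ih1 ih2 =>
    have e : V T (M ^ 2) (n + 2) = T * V T (M ^ 2) (n + 1) - M ^ 2 * V T (M ^ 2) n := rfl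
    rw [e]
    push_cast
    rw [ih1, ih2]
    have hM : (M : F) ^ 2 = x * ((T : F) - x) := by linear_combination hx
    rw [hM]
    ring

theorem PkRK1.W_cast {F : Type*} [Field F] (T M : ℤ) (x : F)
    (hx : x ^ 2 - (T : F) * x + (M : F) ^ 2 = 0) (n : ℕ) :
    x ^ n * ((W T M n : ℤ) : F) = -(x ^ n - (M : F) ^ n) ^ 2 := by
  unfold W
  push_cast
  rw [PkRK1.V_cast T M x hx n]
  have h1 : x ^ n * ((T : F) - x) ^ n = ((M : F) ^ n) ^ 2 := by
    rw [← mul_pow, ← pow_mul, mul_comm n 2, pow_mul]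
    congr 1
    linear_combination -hx
  linear_combination -h1

theorem PkRK1.finOrder (p : ℕ) [Fact p.Prime] (y : AlgebraicClosure (ZMod p)) (hy : y ≠ 0) :
    IsOfFinOrder y := by
  have hint : IsIntegral (ZMod p) y := Algebra.IsIntegral.isIntegral y
  have : FiniteDimensional (ZMod p) (IntermediateField.adjoin (ZMod p) {y}) :=
    IntermediateField.adjoin.finiteDimensional hint
  have : Finite (IntermediateField.adjoin (ZMod p) {y}) :=
    Module.finite_of_finite (ZMod p)
  let z : IntermediateField.adjoin (ZMod p) {y} :=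
    ⟨y, IntermediateField.mem_adjoin_simple_self (ZMod p) y⟩
  have hz : z ≠ 0 := by
    intro h
    apply hy
    have := congrArg Subtype.val h
    simpa [z] using this
  have h1 : IsOfFinOrder (Units.mk0 z hz) := isOfFinOrder_of_finite _
  obtain ⟨n, hn, hn2⟩ := (isOfFinOrder_iff_pow_eq_one).1 h1
  rw [isOfFinOrder_iff_pow_eq_one]
  refine ⟨n, hn, ?_⟩
  have h2 := congrArg (fun u : (IntermediateField.adjoin (ZMod p) {y})ˣ =>
    (((u : IntermediateField.adjoin (ZMod p) {y})) : AlgebraicClosure (ZMod p))) hn2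
  simpa [z] using h2

theorem PkRK1.thm : G_RK1 := by
  intro T M p hp hM
  have : Fact p.Prime := ⟨hp⟩
  let F := AlgebraicClosure (ZMod p)
  have hMF : (M : F) ≠ 0 := by
    intro h
    exact hM ((CharP.intCast_eq_zero_iff F p M).1 h)
  obtain ⟨x, hx⟩ : ∃ x : F, x ^ 2 - (T : F) * x + (M : F) ^ 2 = 0 := by
    have hdeg : (X ^ 2 - C (T : F) * X + C ((M : F) ^ 2)).degree ≠ 0 := by
      have : (X ^ 2 - C (T : F) * X + C ((M : F) ^ 2)).degree = 2 := by
        compute_degree!
      rw [this]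
      decide
    obtain ⟨x, hx⟩ := IsAlgClosed.exists_root _ hdeg
    refine ⟨x, ?_⟩
    simpa [IsRoot] using hx
  have hx0 : x ≠ 0 := by
    rintro rfl
    apply hMF
    have : (M : F) ^ 2 = 0 := by simpa using hx
    exact pow_eq_zero_iff (two_ne_zero) |>.1 this
  have hy0 : x / (M : F) ≠ 0 := div_ne_zero hx0 hMF
  have hfin := PkRK1.finOrder p (x / (M : F)) hy0
  refine ⟨orderOf (x / (M : F)), hfin.orderOf_pos, ?_, ?_⟩
  · rintro ⟨o', ho'⟩
    have h1 : (x / (M : F)) ^ orderOf (x / (M : F)) = 1 := pow_orderOf_eq_one _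
    rw [ho', mul_comm, pow_mul] at h1
    have h2 : ((x / (M : F)) ^ o' - 1) ^ p = 0 := by
      rw [sub_pow_char, one_pow, h1, sub_self]
    have h3 : (x / (M : F)) ^ o' = 1 := sub_eq_zero.1 (pow_eq_zero_iff hp.ne_zero |>.1 h2)
    have h4 := orderOf_dvd_of_pow_eq_one h3
    have hpos := hfin.orderOf_pos
    have ho'pos : 0 < o' := by
      rcases Nat.eq_zero_or_pos o' with h | h
      · rw [h] at ho'; omega
      · exact h
    have h5 := Nat.le_of_dvd ho'pos h4
    have h6 := hp.two_le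
    nlinarith
  · intro n
    rw [orderOf_dvd_iff_pow_eq_one, div_pow, div_eq_one_iff_eq (pow_ne_zero n hMF),
      ← CharP.intCast_eq_zero_iff F p]
    have hW := PkRK1.W_cast T M x hx n
    constructor
    · intro h
      rw [h, mul_zero] at hW
      have h2 : (x ^ n - (M : F) ^ n) ^ 2 = 0 := by
        rw [← neg_eq_zero]; exact hW.symm
      exact sub_eq_zero.1 (pow_eq_zero_iff two_ne_zero |>.1 h2)
    · intro h
      rw [h, sub_self] at hW
      have h2 : (M : F) ^ n * ((W T M n : ℤ) : F) = 0 := by simpa using hW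
      exact (mul_eq_zero.1 h2).resolve_left (pow_ne_zero n hMF)

end Pool.Agent.Helper59.LUC
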