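import Pool.Agent.Helper59.LUC.Goals2
import Pool.Agent.Helper73.LUC.Y

set_option autoImplicit false

namespace Pool.Agent.Helper59.LUC

namespace PkY2

open Polynomial

/-- Growth comparison. -/
lemma growth (C c D : ℝ) (hC : 0 < C) (hc : 0 < c) :
    ∃ r0 : ℕ, ∀ r : ℕ, r0 ≤ r → ∀ φ : ℝ,
      (r : ℝ) ^ ((3 : ℝ) / 4) ≤ C * φ → 2 * Real.log r < φ * c - D * Real.sqrt (2 * r) := by
  have h1 : (fun x : ℝ => 2 * Real.log x + (D * Real.sqrt 2) * Real.sqrt x) =o[Filter.atTop]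
      (fun x : ℝ => x ^ ((3 : ℝ) / 4)) := by
    refine Asymptotics.IsLittleO.add ?_ ?_
    · exact (isLittleO_log_rpow_atTop (by norm_num : (0:ℝ) < 3/4)).const_mul_left 2
    · have : (fun x : ℝ => Real.sqrt x) =o[Filter.atTop] (fun x : ℝ => x ^ ((3 : ℝ) / 4)) := by
        refine Asymptotics.isLittleO_of_tendsto' ?_ ?_
        · filter_upwards [Filter.eventually_gt_atTop (0:ℝ)] with x hx h0
          exact absurd h0 (Real.rpow_pos_of_pos hx _).ne'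
        · have h := tendsto_rpow_neg_atTop (show (0:ℝ) < 1/4 by norm_num)
          refine h.congr' ?_
          filter_upwards [Filter.eventually_gt_atTop (0:ℝ)] with x hx
          rw [Real.sqrt_eq_rpow, ← Real.rpow_sub hx]
          norm_num
      exact this.const_mul_left _
  have h2 : (0:ℝ) < c / (2 * C) := by positivity
  have h3 := (h1.bound h2).and (Filter.eventually_gt_atTop (0:ℝ))
  obtain ⟨x0, hx0⟩ := Filter.eventually_atTop.1 h3
  refine ⟨⌈x0⌉₊, fun r hr φ hφ => ?_⟩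
  have hrx : x0 ≤ (r : ℝ) := Nat.ceil_le.1 hr
  obtain ⟨h4, h5⟩ := hx0 r hrx
  have h6 : 2 * Real.log r + (D * Real.sqrt 2) * Real.sqrt r ≤
      c / (2 * C) * (r : ℝ) ^ ((3 : ℝ) / 4) := by
    refine (le_abs_self _).trans ?_
    have := h4
    rw [Real.norm_eq_abs, Real.norm_eq_abs, abs_of_nonneg (Real.rpow_nonneg h5.le _)] at this
    exact this
  have h7 : 0 < (r : ℝ) ^ ((3 : ℝ) / 4) := Real.rpow_pos_of_pos h5 _
  have h9 : 0 < φ := by
    by_contra hcon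
    push Not at hcon
    nlinarith
  have h8 : c / (2 * C) * (r : ℝ) ^ ((3 : ℝ) / 4) ≤ φ * c / 2 := by
    calc c / (2 * C) * (r : ℝ) ^ ((3 : ℝ) / 4) ≤ c / (2 * C) * (C * φ) :=
          mul_le_mul_of_nonneg_left hφ h2.le
      _ = φ * c / 2 := by field_simp
  have h10 : Real.sqrt (2 * r) = Real.sqrt 2 * Real.sqrt r := Real.sqrt_mul (by norm_num) _
  have h11 : 0 < φ * c := mul_pos h9 hc
  rw [h10]
  linarith

/-- The product formula for the two halves. -/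
lemma prod_eq {M : ℤ} {η ξ : ℂ} (hM : (0 : ℝ) < M) (hξ : ξ ^ 2 = η) {r : ℕ} (hr : 3 ≤ r) {ζ : ℂ}
    (hζ : IsPrimitiveRoot ζ r) {O : Finset ℂ} (hO : Tw r O) :
    (∏ w ∈ O, (Real.sqrt M * ‖ξ - w‖ ^ 2)) * (∏ w ∈ O, (Real.sqrt M * ‖ξ + w‖ ^ 2)) = NR M η r := by
  classical
  have hr0 : 0 < r := by omega
  have hmem : ∀ z : ℂ, z ∈ primitiveRoots r ℂ ↔ IsPrimitiveRoot z r := fun z =>
    mem_primitiveRoots hr0
  have h1 : NR M η r = ∏ z ∈ primitiveRoots r ℂ, ((M : ℝ) * ‖η - z‖ ^ 2) := by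
    rw [NR, cyclotomic_eq_prod_X_sub_primitiveRoots hζ, eval_prod, norm_prod,
      Finset.prod_mul_distrib, Finset.prod_const, hζ.card_primitiveRoots, Finset.prod_pow]
    congr 2
    refine Finset.prod_congr rfl fun z _ => ?_
    simp
  have himg : primitiveRoots r ℂ = O.image (fun w => w ^ 2) := by
    ext z
    rw [hmem, Finset.mem_image]
    constructor
    · intro hz
      obtain ⟨w, hw⟩ := IsAlgClosed.exists_pow_nat_eq z (n := 2) (by norm_num)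
      have hw' : IsPrimitiveRoot (w ^ 2) r := by rw [hw]; exact hz
      by_cases hwO : w ∈ O
      · exact ⟨w, hwO, hw⟩
      · refine ⟨-w, ?_, by rw [neg_sq, hw]⟩
        by_contra hcon
        exact hwO ((hO.half w hw').2 hcon)
    · rintro ⟨w, hw, rfl⟩
      exact hO.prim w hw
  have hinj : ∀ a ∈ O, ∀ b ∈ O, a ^ 2 = b ^ 2 → a = b := by
    intro a ha b hb hab
    rcases sq_eq_sq_iff_eq_or_eq_neg.1 hab with h | h
    · exact h
    · exfalso
      have h2 := (hO.half b (hO.prim b hb)).1 hb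
      rw [← h] at h2
      exact h2 ha
  rw [h1, himg, Finset.prod_image hinj, ← Finset.prod_mul_distrib]
  refine Finset.prod_congr rfl fun w _ => ?_
  have e1 : Real.sqrt M * Real.sqrt M = M := Real.mul_self_sqrt hM.le
  have e2 : η - w ^ 2 = (ξ - w) * (ξ + w) := by rw [← hξ]; ring
  rw [e2, norm_mul]
  linear_combination (‖ξ - w‖ ^ 2 * ‖ξ + w‖ ^ 2) * e1

/-- The logarithmic bound for a half. -/
lemma log_half {M : ℤ} (hM : (0 : ℝ) < M) {ε C0 : ℝ} {ξ : ℂ} {r : ℕ} {O : Finset ℂ}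
    (hub : ∀ (O : Finset ℂ) (R : ℝ), 0 ≤ R →
      (∀ z ∈ O, ‖z‖ = 1 ∧ z ≠ ξ) → (∀ k : ℕ, 1 ≤ k → ‖∑ z ∈ O, z ^ k‖ ^ 2 ≤ k * R ^ 2) →
      ∑ z ∈ O, Real.log (‖ξ - z‖ ^ 2) ≤ ε * O.card + C0 * R)
    (hne : ∀ z ∈ O, z ≠ ξ) (hz1 : ∀ z ∈ O, ‖z‖ = 1)
    (h1 : O.card = r.totient) (h2 : ∀ k : ℕ, 1 ≤ k → ‖∑ w ∈ O, w ^ k‖ ^ 2 ≤ 2 * (k : ℝ) * r)
    {A : ℕ} (hA : (A : ℝ) = ∏ w ∈ O, (Real.sqrt M * ‖ξ - w‖ ^ 2)) :
    0 < (A : ℝ) ∧ Real.log A ≤
      (r.totient : ℝ) * (Real.log M / 2 + ε) + C0 * Real.sqrt (2 * r) := by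
  have hsM : 0 < Real.sqrt M := Real.sqrt_pos.2 hM
  have hpos : ∀ z ∈ O, 0 < ‖ξ - z‖ ^ 2 := by
    intro z hz
    have : 0 < ‖ξ - z‖ := by
      rw [norm_pos_iff, sub_ne_zero]
      exact (hne z hz).symm
    positivity
  refine ⟨by rw [hA]; exact Finset.prod_pos fun z hz => mul_pos hsM (hpos z hz), ?_⟩
  rw [hA, Real.log_prod (fun z hz => (mul_pos hsM (hpos z hz)).ne')]
  have e1 : ∑ z ∈ O, Real.log (Real.sqrt M * ‖ξ - z‖ ^ 2) =
      (O.card : ℝ) * (Real.log M / 2) + ∑ z ∈ O, Real.log (‖ξ - z‖ ^ 2) := by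
    rw [Finset.sum_congr rfl fun z hz => Real.log_mul hsM.ne' (hpos z hz).ne',
      Finset.sum_add_distrib, Finset.sum_const, nsmul_eq_mul, Real.log_sqrt hM.le]
  have e2 := hub O (Real.sqrt (2 * r)) (Real.sqrt_nonneg _) (fun z hz => ⟨hz1 z hz, hne z hz⟩)
    (fun k hk => by
      rw [Real.sq_sqrt (by positivity)]
      refine (h2 k hk).trans (le_of_eq ?_)
      ring)
  rw [e1, ← h1]
  linarith

/-- **Packet Y2**. -/
theorem thm (hgs : G_GS2) (hor : G_OR2) (hrt : G_RT2) (hrn : G_RN2) (hpb : G_PB2) (hub : G_UB2)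
    (hrk : G_RK2B) (hlb : G_LB) (hvb : G_VB) (h1 : G_RK1) (h2 : G_RK2) (h4 : G_RK4) (hn : G_NT) :
    G_Y2 := by
  intro T M η h N hN F hF hsq
  have hMR := h.MR
  obtain ⟨ξ, hξ⟩ := IsAlgClosed.exists_pow_nat_eq η (n := 2) (by norm_num)
  obtain ⟨s, hs⟩ := IsAlgClosed.exists_pow_nat_eq (F : ℂ) (n := 2) (by norm_num)
  have hξn : ‖ξ‖ = 1 := by
    have e : ‖ξ‖ ^ 2 = 1 := by rw [← norm_pow, hξ, h.norm_eq]
    exact (pow_eq_one_iff_of_nonneg (norm_nonneg _) two_ne_zero).1 e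
  have hF0 : F ≠ 0 := hF.ne_zero
  have hl2 : 0 < Real.log 2 := Real.log_pos (by norm_num)
  obtain ⟨C0, hC0, hub'⟩ := hub (Real.log 2 / 16) (by positivity)
  obtain ⟨r1, hr1⟩ := hlb T M η h N hN (Real.log 2 / 16) (by positivity)
  obtain ⟨r2, hr2⟩ := hvb T M η h N hN
  obtain ⟨C, hC, hNT⟩ := hn
  obtain ⟨r3, hr3⟩ := growth C (3 / 8 * Real.log 2) C0 hC (by positivity)
  -- the prime two
  obtain ⟨r4, hr4⟩ : ∃ r4 : ℕ, ∀ r : ℕ, r4 ≤ r → 1 ≤ r → 2 ∣ N r → 2 ∣ r := by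
    by_cases h2M : (2 : ℤ) ∣ M
    · refine ⟨0, fun r _ hr h2N => ?_⟩
      exact absurd h2N (h4 T M η h N hN r 2 hr Nat.prime_two (by exact_mod_cast h2M)).2
    · obtain ⟨o, ho, -, ho2⟩ := h1 T M 2 Nat.prime_two (by exact_mod_cast h2M)
      refine ⟨o + 1, fun r hro hr h2N => ?_⟩
      by_contra h2r
      have h3 := h2 T M η h N hN r 2 hr Nat.prime_two h2r (by exact_mod_cast h2M) h2N o
      have h5 := h3.1 ((ho2 o).2 dvd_rfl)
      have := Nat.le_of_dvd ho h5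
      omega
  refine ⟨max (max (max r1 r2) (max r3 3)) r4, fun r hr hTw => ?_⟩
  have g1 : r1 ≤ r := le_trans (le_trans (le_max_left _ _) (le_trans (le_max_left _ _) (le_max_left _ _))) hr
  have g2 : r2 ≤ r := le_trans (le_trans (le_max_right _ _) (le_trans (le_max_left _ _) (le_max_left _ _))) hr
  have g3 : r3 ≤ r := le_trans (le_trans (le_max_left _ _) (le_trans (le_max_right _ _) (le_max_left _ _))) hr
  have g4 : 3 ≤ r := le_trans (le_trans (le_max_right _ _) (le_trans (le_max_right _ _) (le_max_left _ _))) hr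
  have g5 : r4 ≤ r := le_trans (le_max_right _ _) hr
  have hr0 : r ≠ 0 := by omega
  have hζ : IsPrimitiveRoot (Complex.exp (2 * Real.pi * Complex.I / r)) r :=
    Complex.isPrimitiveRoot_exp r hr0
  obtain ⟨hh, hhO⟩ := hgs F r hF (by omega) hTw
  obtain ⟨O, hO, hOm⟩ := hor F r hh hF0 g4 hhO s hs
  have hG := hrt F r hh hF0 g4 hhO s hs O hOm
  obtain ⟨p1, p2⟩ := hpb r g4 O hO
  have hev : Even O.card := by rw [p1]; exact Nat.totient_even (by omega)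
  have hru : ∀ w ∈ O, ∃ n : ℕ, 0 < n ∧ w ^ n = 1 := by
    intro w hw
    refine ⟨2 * r, by omega, ?_⟩
    rw [pow_mul]
    exact (hO.prim w hw).pow_eq_one
  have hz1 : ∀ z ∈ O, ‖z‖ = 1 := by
    intro z hz
    obtain ⟨n, hn0, hn1⟩ := hru z hz
    have e : ‖z‖ ^ n = 1 := by rw [← norm_pow, hn1, norm_one]
    exact (pow_eq_one_iff_of_nonneg (norm_nonneg _) hn0.ne').1 e
  obtain ⟨NA, hNA⟩ := hrn T M η ξ h hξ F hsq s hs O hev hru hG
  have hξ' : (-ξ) ^ 2 = η := by rw [neg_sq, hξ]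
  obtain ⟨NB, hNB'⟩ := hrn T M η (-ξ) h hξ' F hsq s hs O hev hru hG
  have hNB : (NB : ℝ) = ∏ w ∈ O, (Real.sqrt M * ‖ξ + w‖ ^ 2) := by
    rw [hNB']
    refine Finset.prod_congr rfl fun w _ => ?_
    rw [show -ξ - w = -(ξ + w) by ring, norm_neg]
  have hne1 : ∀ z ∈ O, z ≠ ξ := by
    rintro z hz rfl
    have := (hO.prim z hz).pow_eq_one
    rw [hξ] at this
    exact h.hru r (by omega) this
  have hne2 : ∀ z ∈ O, z ≠ -ξ := by
    intro z hz hzz
    have := (hO.prim z hz).pow_eq_one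
    rw [hzz, hξ'] at this
    exact h.hru r (by omega) this
  have hprod := prod_eq hMR hξ g4 hζ hO
  rw [← hNA, ← hNB, ← hN.eq r (by omega)] at hprod
  have hprod' : NA * NB = N r := by exact_mod_cast hprod
  obtain ⟨a1, a2⟩ := log_half hMR (hub' ξ hξn) hne1 hz1 p1 p2 hNA
  obtain ⟨b1, b2⟩ := log_half hMR (hub' (-ξ) (by rw [norm_neg, hξn])) hne2 hz1 p1 p2 hNB'
  have hlow := hr1 r g1
  have hNr : (N r : ℝ) = NA * NB := hprod.symm
  have hlog : (r.totient : ℝ) * (Real.log M - Real.log 2 / 16) ≤ Real.log NA + Real.log NB := by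
    rw [← Real.log_mul a1.ne' b1.ne', ← hNr]
    rw [Real.le_log_iff_exp_le (by rw [hNr]; positivity)]
    exact hlow
  have hgr := hr3 r g3 (r.totient : ℝ) (by
    refine le_trans ?_ (hNT r (by omega))
    have q1 : (1 : ℝ) ≤ 2 ^ (r.primeFactors.card) := one_le_pow₀ (by norm_num)
    have q2 : 0 ≤ (r : ℝ) ^ ((3 : ℝ) / 4) := Real.rpow_nonneg (Nat.cast_nonneg _) _
    nlinarith)
  have hM2 : Real.log 2 ≤ Real.log M := by
    apply Real.log_le_log (by norm_num)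
    exact_mod_cast h.hM
  have ht0 : 0 ≤ (r.totient : ℝ) := Nat.cast_nonneg _
  have key : (r.totient : ℝ) * (3 / 8 * Real.log 2) ≤
      (r.totient : ℝ) * (Real.log M / 2 - Real.log 2 / 8) :=
    mul_le_mul_of_nonneg_left (by linarith) ht0
  have hA : 2 * Real.log r < Real.log NA := by nlinarith
  have hB : 2 * Real.log r < Real.log NB := by nlinarith
  have hN0 : N r ≠ 0 := by
    intro h0
    rw [h0] at hNr
    have : (0:ℝ) < NA * NB := by positivity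
    rw [← hNr] at this
    simp at this
  have hdA : NA ∣ N r := ⟨NB, hprod'.symm⟩
  have hdB : NB ∣ N r := ⟨NA, by rw [mul_comm]; exact hprod'.symm⟩
  have h2r : ∀ p : ℕ, p.Prime → p ∣ N r → ¬ p ∣ r → ¬ p ∣ 2 * r := by
    intro p hp hpN hpr hcon
    rcases (hp.dvd_mul).1 hcon with h5 | h5
    · have h6 : p = 2 := (Nat.prime_dvd_prime_iff_eq hp Nat.prime_two).1 h5
      rw [h6] at hpN hpr
      exact hpr (hr4 r g5 (by omega) hpN)
    · exact hpr h5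
  obtain ⟨p, hp, hpA, hpr⟩ := PkY.exists_prime (by omega) hN0 hdA (hr2 r g2) hA
  obtain ⟨p', hp', hpB, hpr'⟩ := PkY.exists_prime (by omega) hN0 hdB (hr2 r g2) hB
  have hpM : ¬ (p : ℤ) ∣ M := fun hcon =>
    (h4 T M η h N hN r p (by omega) hp hcon).2 (hpA.trans hdA)
  have hpM' : ¬ (p' : ℤ) ∣ M := fun hcon =>
    (h4 T M η h N hN r p' (by omega) hp' hcon).2 (hpB.trans hdB)
  refine ⟨p, p', hp, hp', ?_, hpM, hpM',
    h2 T M η h N hN r p (by omega) hp hpr hpM (hpA.trans hdA),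
    h2 T M η h N hN r p' (by omega) hp' hpr' hpM' (hpB.trans hdB)⟩
  rintro rfl
  exact hrk T M η ξ h hξ r p (by omega) hp (h2r p hp (hpA.trans hdA) hpr) hpM O hO.prim
    (fun w hw => (hO.half w (hO.prim w hw)).1 hw) NA NB hNA hNB ⟨hpA, hpB⟩

end PkY2

end Pool.Agent.Helper59.LUC
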